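import Pool.Agent.helper47.CL.SpecD

/-! Row cl:ZSx (MP_d9d598_co). -/

set_option autoImplicit false

namespace Pool.Agent.helper41.CL

open Finset

theorem ZS_other {α : Type} [DecidableEq α] {V : Finset α} {E : Finset (Finset α)} (h : Gr V E) {e : Finset α} (he : e ∈ E) {x : α} (hx : x ∈ e) :
    ∃ a, x ≠ a ∧ e = {x, a} := by
  obtain ⟨u, v, huv, rfl⟩ := Finset.card_eq_two.1 (h e he).2
  rcases Finset.mem_insert.1 hx with rfl | hx
  · exact ⟨v, huv, rfl⟩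
  · have := Finset.mem_singleton.1 hx
    subst this
    exact ⟨u, huv.symm, Finset.pair_comm _ _⟩

theorem ZS_mem {α : Type} [DecidableEq α] {E : Finset (Finset α)} {x : α} {e : Finset α} : e ∈ inc E x ↔ e ∈ E ∧ x ∈ e := by
  unfold inc
  exact Finset.mem_filter

theorem ZS_uniq {α : Type} [DecidableEq α] {E : Finset (Finset α)} {x : α} (h : ¬ 2 ≤ #(inc E x)) {e e' : Finset α} (he : e ∈ E) (hx : x ∈ e)
    (he' : e' ∈ E) (hx' : x ∈ e') : e' = e := by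
  have h1 : #(inc E x) ≤ 1 := by omega
  exact Finset.card_le_one.1 h1 e' (ZS_mem.2 ⟨he', hx'⟩) e (ZS_mem.2 ⟨he, hx⟩)

theorem ZS_two {α : Type} [DecidableEq α] {V : Finset α} {E : Finset (Finset α)} (h : Gr V E) (h1 : ¬ ∃ x a, Lf E x a)
    (h3 : ¬ ∃ p a b, Tw E p a b ∧ 2 ≤ #(inc E a) ∧ 2 ≤ #(inc E b)) {x : α} (hx : #(inc E x) = 2) : False := by
  obtain ⟨e1, e2, h12, hi⟩ := Finset.card_eq_two.1 hx
  have m1 : e1 ∈ inc E x := by rw [hi]; exact Finset.mem_insert_self _ _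
  have m2 : e2 ∈ inc E x := by rw [hi]; exact Finset.mem_insert_of_mem (Finset.mem_singleton_self _)
  obtain ⟨a, hxa, rfl⟩ := ZS_other h (ZS_mem.1 m1).1 (ZS_mem.1 m1).2
  obtain ⟨b, hxb, rfl⟩ := ZS_other h (ZS_mem.1 m2).1 (ZS_mem.1 m2).2
  have hab : a ≠ b := by
    intro hab
    exact h12 (by rw [hab])
  have ht : Tw E x a b := by
    refine ⟨hab, hxa, hxb, (ZS_mem.1 m1).1, (ZS_mem.1 m2).1, ?_⟩
    intro e he hxe
    have : e ∈ inc E x := ZS_mem.2 ⟨he, hxe⟩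
    rw [hi] at this
    rcases Finset.mem_insert.1 this with h | h
    · exact Or.inl h
    · exact Or.inr (Finset.mem_singleton.1 h)
  have key : ∀ c : α, x ≠ c → {x, c} ∈ E → 2 ≤ #(inc E c) := by
    intro c hc hcE
    by_contra hn
    apply h1
    refine ⟨c, x, hc.symm, ?_, ?_, by omega⟩
    · rw [Finset.pair_comm]; exact hcE
    · intro e he hce
      rw [Finset.pair_comm]
      exact ZS_uniq hn hcE (Finset.mem_insert_of_mem (Finset.mem_singleton_self _)) he hce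
  exact h3 ⟨x, a, b, ht, key a hxa (ZS_mem.1 m1).1, key b hxb (ZS_mem.1 m2).1⟩

theorem ZS : ZS_stmt := by
  intro α _ V E h
  by_cases h1 : ∃ x a, Lf E x a
  · exact Or.inl h1
  by_cases h2 : (∃ y ∈ V, ∀ e ∈ E, y ∉ e) ∧ ∃ a, 2 ≤ #(inc E a)
  · exact Or.inr (Or.inl h2)
  by_cases h3 : ∃ p a b, Tw E p a b ∧ 2 ≤ #(inc E a) ∧ 2 ≤ #(inc E b)
  · exact Or.inr (Or.inr (Or.inl h3))
  by_cases h4 : ∀ x, #(inc E x) ≤ 1
  · exact Or.inr (Or.inr (Or.inr (Or.inl h4)))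
  refine Or.inr (Or.inr (Or.inr (Or.inr ?_)))
  push Not at h4
  obtain ⟨v, hv⟩ := h4
  have hiso : ∀ y ∈ V, ∃ e ∈ E, y ∈ e := by
    intro y hy
    by_contra hn
    push Not at hn
    exact h2 ⟨⟨y, hy, hn⟩, v, by omega⟩
  constructor
  · refine ⟨v, ?_⟩
    by_contra hn
    exact ZS_two h h1 h3 (x := v) (by omega)
  · intro x hx
    by_cases hx3 : 3 ≤ #(inc E x)
    · exact Or.inl hx3
    right
    obtain ⟨e, he, hxe⟩ := hiso x hx
    have hx2 : ¬ 2 ≤ #(inc E x) := by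
      intro hx2
      exact ZS_two h h1 h3 (x := x) (by omega)
    obtain ⟨a, hxa, rfl⟩ := ZS_other h he hxe
    refine ⟨a, hxa, he, ?_⟩
    have ha2 : ¬ 2 ≤ #(inc E a) := by
      intro ha2
      exact h1 ⟨x, a, hxa, he, fun e' he' hx' => ZS_uniq hx2 he hxe he' hx', ha2⟩
    intro e' he' hor
    rcases hor with h' | h'
    · exact ZS_uniq hx2 he hxe he' h'
    · exact ZS_uniq ha2 he (Finset.mem_insert_of_mem (Finset.mem_singleton_self _)) he' h'

end Pool.Agent.helper41.CL
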